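import Mathlib
import Pool.Agent.Run7.h842.StarE

/-!
# Starshapedness from clear visibility of points of local non-convexity, in every dimension

For every `d`, a compact connected subset of `ℝ^d` any `d + 1` of whose locally non-convex
points are clearly visible from a common point of the set is starshaped.
-/

open Set Metric

namespace Pool.Agent.Results.MP_ad2f8c_co.LNCStarshaped

variable {d : ℕ}

/-- `y` sees `x` via `E`: the closed segment `[y, x]` is contained in `E`. -/
def Sees (E : Set (EuclideanSpace ℝ (Fin d))) (y x : EuclideanSpace ℝ (Fin d)) : Prop :=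
  segment ℝ y x ⊆ E

/-- `E` is starshaped: some point of `E` sees every point of `E`. -/
def Starshaped (E : Set (EuclideanSpace ℝ (Fin d))) : Prop :=
  ∃ y ∈ E, ∀ x ∈ E, Sees E y x

/-- `x` is a locally non-convex (LNC) point of `E`: a boundary point of `E` such that
`B_r(x) ∩ E` fails to be convex for every `r > 0`. -/
def IsLNC (E : Set (EuclideanSpace ℝ (Fin d))) (x : EuclideanSpace ℝ (Fin d)) : Prop :=
  x ∈ frontier E ∧ ∀ r : ℝ, 0 < r → ¬ Convex ℝ (ball x r ∩ E)

/-- `x` is clearly visible from `y` (via `E`): for some `r > 0`, `y` sees every point of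
`B_r(x) ∩ E`. -/
def ClearlyVisible (E : Set (EuclideanSpace ℝ (Fin d))) (x y : EuclideanSpace ℝ (Fin d)) :
    Prop :=
  ∃ r : ℝ, 0 < r ∧ ∀ z ∈ ball x r ∩ E, Sees E y z

/-- Property `C_n`: any `n` LNC points of `E` (not necessarily distinct) are all clearly
visible from a single point of `E`. -/
def PropertyC (n : ℕ) (E : Set (EuclideanSpace ℝ (Fin d))) : Prop :=
  ∀ x : Fin n → EuclideanSpace ℝ (Fin d), (∀ i, IsLNC E (x i)) →
    ∃ y ∈ E, ∀ i, ClearlyVisible E (x i) y

/-- In every dimension `d`, a compact connected set with property `C_{d+1}` is starshaped. -/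
theorem result (d : ℕ) (E : Set (EuclideanSpace ℝ (Fin d))) (hE : IsCompact E)
    (hconn : IsConnected E) (hC : PropertyC (d + 1) E) : Starshaped E :=
  Run7.h842.Star.starshaped_of_clearly_visible hE hconn (n := d + 1)
    (by rw [finrank_euclideanSpace_fin]) hC

end Pool.Agent.Results.MP_ad2f8c_co.LNCStarshaped
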